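import Pool.Agent.N279.QG.FINP

/-!
From the mean value theorem to the final theorem, primes, for polynomials `G` with either sign of the leading
coefficient (after `Pool/Agent/N279/QG/FINP.lean`).
-/

set_option autoImplicit false

namespace Pool.Agent.H37Z.HD

open Finset Pool.Agent.N728.QG Pool.Agent.N279.QG
open Pool.Agent.N728.QL (lp lz EE S_MER)
open Pool.Agent.N199.QL (fin_ineq hh hh_step hh_ge hh_le hh_up markov ev_pow ev_log ev_ge)

noncomputable section

/-- lower bound for the values -/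
theorem val_low' {G : Polynomial ℤ} {c : ℤ} {b t : ℕ} (hG : -((b : ℝ) / 4) ≤ ((G.eval (t : ℤ) : ℤ) : ℝ))
    (hb : 8 * c.natAbs + 16 ≤ b) (ht : 1 ≤ t) :
    (t : ℝ) * b / 2 ≤ ((fp G b c t : ℤ) : ℝ) := by
  have ht' : (1 : ℝ) ≤ t := by exact_mod_cast ht
  have h3 : 8 * |(c : ℝ)| + 16 ≤ b := by
    have h4 : ((8 * c.natAbs + 16 : ℕ) : ℝ) ≤ b := by exact_mod_cast hb
    push_cast at h4
    have h5 : ((c.natAbs : ℕ) : ℝ) = |(c : ℝ)| := by
      rw [Nat.cast_natAbs]
      push_cast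
      rfl
    rw [h5] at h4
    exact h4
  have h6 := neg_abs_le (c : ℝ)
  have h7 : ((fp G b c t : ℤ) : ℝ) = (t : ℝ) * (((G.eval (t : ℤ) : ℤ) : ℝ) + b) + c := by
    unfold fp
    push_cast
    ring
  rw [h7]
  have h8 : 0 ≤ |(c : ℝ)| := abs_nonneg _
  have h10 : 3 / 4 * (b : ℝ) ≤ ((G.eval (t : ℤ) : ℤ) : ℝ) + b := by linarith
  have h11 : (t : ℝ) * (3 / 4 * b) ≤ t * (((G.eval (t : ℤ) : ℤ) : ℝ) + b) :=
    mul_le_mul_of_nonneg_left h10 (by linarith)
  have h12 : |(c : ℝ)| ≤ t * (b / 4) := by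
    have : |(c : ℝ)| ≤ 1 * (b / 4) := by linarith
    refine this.trans (mul_le_mul_of_nonneg_right ht' (by linarith))
  linarith

/-- (FINP) from the mean value theorem to the final theorem -/
theorem fin2 (G : Polynomial ℤ) (c : ℤ) (hd : 2 ≤ G.natDegree)
    (hc : c ≠ 0) (h1 : S_MCP G c) (h2 : Pool.Agent.N728.QG.S_LOC) (h3 : S_AVS) (h4 : S_TLS) :
    ∀ ε : ℝ, 0 < ε → ∃ η : ℝ, 0 < η ∧ ∀ (δ0 : ℝ) (K C2 : ℕ), 0 < δ0 → ∃ z0 : ℕ, ∀ A : ℕ, ∃ B0 : ℕ,
    ∀ B : ℕ, B0 ≤ B → ∀ T Z : ℕ, (B : ℝ) ≤ (T : ℝ) ^ G.natDegree * Real.log B ^ C2 → T ^ G.natDegree ≤ K * B →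
    (∀ u : ℕ, 1 ≤ u → u ≤ T → -(η * B) ≤ ((G.eval (u : ℤ) : ℤ) : ℝ)) →
    z0 ≤ Z → (Z : ℝ) ≤ Real.log B ^ A →
    (((Icc 1 B).filter (fun b : ℕ => ¬ |(cnt G b c T : ℝ) -
      Sg G b c Z * ∑ t ∈ (Icc 1 T).filter (fun t => 2 ≤ fp G b c t), 1 / Real.log ((fp G b c t : ℤ) : ℝ)| ≤
        δ0 * (T / Real.log T))).card : ℝ) ≤ ε * B := by
  classical
  obtain ⟨C1, hMC⟩ := h1
  obtain ⟨CU, hCU⟩ := poly_up G
  obtain ⟨CA, hCA, hAVS⟩ := h3 G c (by omega) hc
  intro ε hε
  obtain ⟨e1, he1d⟩ : ∃ e1, e1 = min ε 1 := ⟨_, rfl⟩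
  have he10 : 0 < e1 := by rw [he1d]; exact lt_min hε one_pos
  have he11 : e1 ≤ 1 := by rw [he1d]; exact min_le_right _ _
  have he1ε : e1 ≤ ε := by rw [he1d]; exact min_le_left _ _
  obtain ⟨I, hI⟩ : ∃ I : ℕ, 8 / e1 ≤ (2 : ℝ) ^ I :=
    pow_unbounded_of_one_lt (8 / e1) (by norm_num : (1 : ℝ) < 2) |>.imp fun n hn => hn.le
  refine ⟨1 / 2 ^ (I + 3), by positivity, ?_⟩
  intro δ0 K C2 hδ00
  obtain ⟨e, he⟩ : ∃ e, e = min e1 δ0 := ⟨_, rfl⟩
  have he0 : 0 < e := by rw [he]; exact lt_min he10 hδ00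
  have hee1 : e ≤ e1 := by rw [he]; exact min_le_left _ _
  have he1 : e ≤ 1 := hee1.trans he11
  have heε : e ≤ δ0 := by rw [he]; exact min_le_right _ _
  obtain ⟨K0, hK0⟩ : ∃ K0 : ℝ, K0 = 8 * CA / e := ⟨_, rfl⟩
  have hK0p : 0 < K0 := by rw [hK0]; positivity
  obtain ⟨KP, hKP⟩ : ∃ KP : ℝ, KP = (K0 + 1) / 2 := ⟨_, rfl⟩
  have hKPp : 0 < KP := by rw [hKP]; positivity
  obtain ⟨J, hJ1, hJK⟩ : ∃ J : ℕ, 1 ≤ J ∧ 16 * KP ≤ e * J := by
    obtain ⟨n, hn⟩ := exists_nat_ge (16 * KP / e)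
    refine ⟨n + 1, by omega, ?_⟩
    rw [div_le_iff₀ he0] at hn
    push_cast
    nlinarith
  obtain ⟨δ, hδ⟩ : ∃ δ, δ = e / 100 := ⟨_, rfl⟩
  have hδ0 : 0 < δ := by rw [hδ]; positivity
  obtain ⟨K', hK'⟩ : ∃ K' : ℕ, K' = K * 2 ^ (I + 1) * (3 * CU + 1) + 15 := ⟨_, rfl⟩
  obtain ⟨z1, hz1⟩ := hMC K' (δ * (e / (8 * (I + 1)))) (by omega) (by positivity)
  obtain ⟨z2, hz2⟩ := h4 G c (by omega) hc δ hδ0
  obtain ⟨z, hz⟩ : ∃ z, z = max z1 z2 := ⟨_, rfl⟩
  obtain ⟨B1, hB1⟩ := hz1 z (by rw [hz]; exact le_max_left _ _) (C2 + 1)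
  obtain ⟨B2, hB2⟩ := hAVS z
  obtain ⟨Cz, hCz, hloc⟩ := h2 G c z
  refine ⟨z, fun A => ?_⟩
  obtain ⟨B3, hB3⟩ := hz2 z (by rw [hz]; exact le_max_right _ _) A
  have hJ' : (1 : ℝ) ≤ J := by exact_mod_cast hJ1
  obtain ⟨Rt, hRt⟩ : ∃ Rt : ℝ, Rt = (CU * K + 2) * (2 * J * 2 ^ I) := ⟨_, rfl⟩
  have hRt1 : 1 ≤ Rt := by
    rw [hRt]
    have e1 : (1 : ℝ) ≤ CU * K + 2 := by
      have : (0 : ℝ) ≤ CU * K := by positivity
      linarith
    have e2 : (1 : ℝ) ≤ 2 ^ I := one_le_pow₀ (by norm_num)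
    have e3 : (1 : ℝ) ≤ 2 * J * 2 ^ I := by nlinarith
    nlinarith
  obtain ⟨cJ, hcJ⟩ : ∃ cJ : ℝ, cJ = Real.log Rt := ⟨_, rfl⟩
  have hcJ0 : 0 ≤ cJ := by rw [hcJ]; exact Real.log_nonneg hRt1
  have hdne : G.natDegree ≠ 0 := by omega
  -- large `B`
  have hev : ∀ᶠ B : ℕ in Filter.atTop, ∀ T Z : ℕ,
      (B : ℝ) ≤ (T : ℝ) ^ G.natDegree * Real.log B ^ C2 → T ^ G.natDegree ≤ K * B →
      (∀ u : ℕ, 1 ≤ u → u ≤ T → -(1 / 2 ^ (I + 3) * B) ≤ ((G.eval (u : ℤ) : ℤ) : ℝ)) →
      z ≤ Z → (Z : ℝ) ≤ Real.log B ^ A →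
      (((Icc 1 B).filter (fun b : ℕ => ¬ |(cnt G b c T : ℝ) -
        Sg G b c Z * ∑ t ∈ (Icc 1 T).filter (fun t => 2 ≤ fp G b c t),
          1 / Real.log ((fp G b c t : ℤ) : ℝ)| ≤
        δ0 * (T / Real.log T))).card : ℝ) ≤ ε * B := by
    filter_upwards [Filter.eventually_ge_atTop 1, Filter.eventually_ge_atTop B2,
      Filter.eventually_ge_atTop B3,
      Filter.eventually_ge_atTop (2 ^ (I + 1) * B1),
      Filter.eventually_ge_atTop (2 ^ (I + 1) * (8 * c.natAbs + 16)),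
      ev_ge (16 / e1), ev_log 1,
      ev_log (2 * (I + 1) * Real.log 2), ev_log ((2 * J) ^ G.natDegree * 2 ^ (C2 + 1)),
      ev_log (4 * cJ), ev_log (32 * (2 * KP + 1) * cJ / e),
      ev_pow ((2 * J + 2) ^ G.natDegree) C2, ev_pow ((Cz / δ) ^ G.natDegree) C2,
      ev_pow (K * 4 ^ (I + 1)) (2 * C1)] with B g1 g2 g2' g3 g4 g5 g6 g8 g9 g10 g11 g12 g13 g14
    intro T Z hT hT' hGlow hzZ hZA
    obtain ⟨lam, hlam⟩ : ∃ lam, lam = Real.log (B : ℝ) := ⟨_, rfl⟩
    have hTLS := hB3 B g2' Z hzZ hZA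
    rw [← hlam] at g6 g8 g9 g10 g11 g12 g13 g14 hT
    have hlam0 : 0 < lam := by linarith
    have hBR : (1 : ℝ) ≤ B := by exact_mod_cast g1
    have hB0 : (0 : ℝ) < B := by linarith
    have hp2 : 0 < lam ^ C2 := by positivity
    have hbig : ∀ M : ℝ, 0 ≤ M → M ^ G.natDegree * lam ^ C2 ≤ B → M ≤ T := by
      intro M hM hle
      have e1 := le_of_mul_le_mul_right (hle.trans hT) hp2
      exact (pow_le_pow_iff_left₀ hM (Nat.cast_nonneg T) hdne).1 e1
    have hTJ : (2 * (J : ℝ) + 2) ≤ T := hbig _ (by positivity) g12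
    have hTC : Cz / δ ≤ T := hbig _ (by positivity) g13
    have hTC' : Cz ≤ δ * T := by
      rw [div_le_iff₀ hδ0] at hTC
      linarith
    have hT0 : (0 : ℝ) < T := by linarith
    have hT1 : 1 ≤ T := by
      have : (1 : ℝ) ≤ T := by linarith
      exact_mod_cast this
    have hT1r : (1 : ℝ) ≤ T := by exact_mod_cast hT1
    have hTKB : (T : ℝ) ^ G.natDegree ≤ K * B := by exact_mod_cast hT'
    have hTsq : (T : ℝ) ^ 2 ≤ K * B := (pow_le_pow_right₀ hT1r hd).trans hTKB
    have hTL : (T : ℝ) * lam ^ C1 * 2 ^ (I + 1) ≤ B := by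
      rw [← pow_le_pow_iff_left₀ (n := 2) (by positivity) (by positivity) (by norm_num)]
      calc ((T : ℝ) * lam ^ C1 * 2 ^ (I + 1)) ^ 2
          = (T : ℝ) ^ 2 * (lam ^ (2 * C1) * 4 ^ (I + 1)) := by
            have e1 : (4 : ℝ) ^ (I + 1) = (2 ^ (I + 1)) ^ 2 := by
              rw [← pow_mul, mul_comm, pow_mul]
              norm_num
            rw [e1, pow_mul']
            ring
        _ ≤ (K * B) * (lam ^ (2 * C1) * 4 ^ (I + 1)) := by gcongr
        _ = (K * 4 ^ (I + 1) * lam ^ (2 * C1)) * B := by ring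
        _ ≤ B * B := by gcongr
        _ = (B : ℝ) ^ 2 := by ring
    have hTB : (T : ℝ) ≤ B := by
      refine le_trans ?_ hTL
      have e1 : 1 ≤ lam ^ C1 := one_le_pow₀ g6
      have e2 : (1 : ℝ) ≤ 2 ^ (I + 1) := one_le_pow₀ (by norm_num)
      rw [mul_assoc]
      exact le_mul_of_one_le_right hT0.le (by nlinarith)
    obtain ⟨T1, hT1d⟩ : ∃ T1, T1 = T / J := ⟨_, rfl⟩
    have hT1T : T1 ≤ T := by rw [hT1d]; exact Nat.div_le_self _ _
    have hT1T' : (T1 : ℝ) ≤ T := by exact_mod_cast hT1T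
    have hT1J : (T : ℝ) ≤ 2 * J * T1 := by
      have e1 := Nat.div_add_mod T J
      have e2 := Nat.mod_lt T (by omega : J > 0)
      rw [← hT1d] at e1
      have e3 : (T : ℝ) < J * T1 + J := by
        have : T < J * T1 + J := by omega
        exact_mod_cast this
      linarith
    -- the exceptional sets
    obtain ⟨M, hM⟩ : ∃ M : ℕ → ℕ → Finset ℕ, M = fun (i τ : ℕ) =>
      (Ioc (2 * hh B (i + 2)) (4 * hh B (i + 2))).filter fun b : ℕ =>
        δ * T < |∑ t ∈ Icc 1 τ, EE z (fp G b c t)| := ⟨_, rfl⟩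
    have hMcard : ∀ i < I, ∀ τ : ℕ, (T : ℝ) ≤ 2 * J * τ → τ ≤ T →
        ((M i τ).card : ℝ) ≤ e / (8 * (I + 1)) * B := by
      intro i hi τ hτ1 hτ2
      have k1 := hh_ge B (i + 2)
      have k2 := hh_le g1 (i + 2)
      have k3 : B ≤ 2 ^ (I + 1) * hh B (i + 2) :=
        k1.trans (Nat.mul_le_mul_right _ (Nat.pow_le_pow_right (by norm_num) (by omega)))
      have k4 : B1 ≤ hh B (i + 2) := by
        have := g3.trans k3
        exact Nat.le_of_mul_le_mul_left this (by positivity)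
      have k5 : 8 * c.natAbs + 16 ≤ hh B (i + 2) := by
        have := g4.trans k3
        exact Nat.le_of_mul_le_mul_left this (by positivity)
      obtain ⟨B', hB'd⟩ : ∃ B', B' = hh B (i + 2) := ⟨_, rfl⟩
      rw [← hB'd] at k1 k2 k3 k4 k5
      have hB'0 : (1 : ℝ) ≤ B' := by exact_mod_cast k2.1
      have hB'B : (B' : ℝ) ≤ B := by exact_mod_cast k2.2
      have k3' : (B : ℝ) ≤ 2 ^ (I + 1) * B' := by exact_mod_cast k3
      have hl1 : Real.log B' ≤ lam := by
        rw [hlam]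
        exact Real.log_le_log (by linarith) hB'B
      have hl0 : 0 ≤ Real.log B' := Real.log_nonneg hB'0
      have hl2 : lam / 2 ≤ Real.log B' := by
        have e1 : lam ≤ (I + 1 : ℕ) * Real.log 2 + Real.log B' := by
          rw [hlam, ← Real.log_pow, ← Real.log_mul (by positivity) (by linarith)]
          exact Real.log_le_log hB0 k3'
        push_cast at e1
        linarith
      have hτT : (τ : ℝ) ≤ T := by exact_mod_cast hτ2
      have hτ0 : (0 : ℝ) ≤ τ := Nat.cast_nonneg τ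
      have c1 : (B' : ℝ) ≤ (τ : ℝ) ^ G.natDegree * Real.log B' ^ (C2 + 1) := by
        calc (B' : ℝ) ≤ B := hB'B
          _ ≤ (T : ℝ) ^ G.natDegree * lam ^ C2 := hT
          _ ≤ (2 * J * τ) ^ G.natDegree * lam ^ C2 := by gcongr
          _ = (τ : ℝ) ^ G.natDegree *
              (((2 * J) ^ G.natDegree * 2 ^ (C2 + 1)) * lam ^ C2 / 2 ^ (C2 + 1)) := by
              rw [mul_pow (2 * (J : ℝ))]
              field_simp
          _ ≤ (τ : ℝ) ^ G.natDegree * (lam * lam ^ C2 / 2 ^ (C2 + 1)) := by gcongr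
          _ = (τ : ℝ) ^ G.natDegree * (lam / 2) ^ (C2 + 1) := by
              rw [div_pow, pow_succ' lam]
          _ ≤ (τ : ℝ) ^ G.natDegree * Real.log B' ^ (C2 + 1) := by gcongr
      have c2 : τ ^ G.natDegree ≤ K' * B' := by
        calc τ ^ G.natDegree ≤ T ^ G.natDegree := Nat.pow_le_pow_left hτ2 _
          _ ≤ K * B := hT'
          _ ≤ K * (2 ^ (I + 1) * B') := Nat.mul_le_mul_left _ k3
          _ = (K * 2 ^ (I + 1)) * B' := by ring
          _ ≤ K' * B' := by
              refine Nat.mul_le_mul_right _ ?_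
              rw [hK']
              nlinarith [Nat.zero_le (K * 2 ^ (I + 1) * (3 * CU))]
      have c3 : (τ : ℝ) * Real.log B' ^ C1 ≤ B' := by
        have e1 : (τ : ℝ) * Real.log B' ^ C1 ≤ T * lam ^ C1 := by gcongr
        have e2 : (2 : ℝ) ^ (I + 1) * (T * lam ^ C1) ≤ 2 ^ (I + 1) * B' := by
          calc (2 : ℝ) ^ (I + 1) * (T * lam ^ C1) = T * lam ^ C1 * 2 ^ (I + 1) := by ring
            _ ≤ B := hTL
            _ ≤ 2 ^ (I + 1) * B' := k3'
        exact e1.trans (le_of_mul_le_mul_left e2 (by positivity))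
      have c4 : Rge G K' B' τ := by
        intro u hu1 huτ
        constructor
        · have e1 := hGlow u hu1 (huτ.trans hτ2)
          have e2 : 1 / 2 ^ (I + 3) * (B : ℝ) ≤ B' / 4 := by
            calc 1 / 2 ^ (I + 3) * (B : ℝ) ≤ 1 / 2 ^ (I + 3) * (2 ^ (I + 1) * B') := by gcongr
              _ = B' / 4 := by
                rw [show (2 : ℝ) ^ (I + 3) = 4 * 2 ^ (I + 1) by ring]
                field_simp
          have e3 : -(B' : ℝ) ≤ 2 * ((G.eval (u : ℤ) : ℤ) : ℝ) := by linarith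
          exact_mod_cast e3
        · have e1 := hCU u hu1
          have e2 : (u : ℤ) ^ G.natDegree ≤ (K * 2 ^ (I + 1) * B' : ℕ) := by
            have e3 : u ^ G.natDegree ≤ K * 2 ^ (I + 1) * B' := by
              calc u ^ G.natDegree ≤ T ^ G.natDegree :=
                    Nat.pow_le_pow_left (huτ.trans hτ2) _
                _ ≤ K * B := hT'
                _ ≤ K * (2 ^ (I + 1) * B') := Nat.mul_le_mul_left _ k3
                _ = K * 2 ^ (I + 1) * B' := by ring
            exact_mod_cast e3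
          have e4 : (CU : ℤ) * (u : ℤ) ^ G.natDegree ≤ CU * (K * 2 ^ (I + 1) * B' : ℕ) :=
            mul_le_mul_of_nonneg_left e2 (by positivity)
          rw [hK']
          push_cast at e4 ⊢
          have e5 : (0 : ℤ) ≤ (K : ℤ) * 2 ^ (I + 1) * B' := by positivity
          nlinarith
      have key := hB1 B' k4 τ c1 c2 c3 c4
      rw [hM]
      simp only
      rw [← hB'd]
      refine markov _ (fun b : ℕ => |∑ t ∈ Icc 1 τ, EE z (fp G b c t)|)
        (fun b => abs_nonneg _) (by positivity) ?_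
      refine key.trans ?_
      have e3 : (B' : ℝ) * τ ≤ B * T := by gcongr
      calc δ * (e / (8 * (I + 1))) * (B' * τ) ≤ δ * (e / (8 * (I + 1))) * (B * T) := by gcongr
        _ = e / (8 * (I + 1)) * B * (δ * T) := by ring
    obtain ⟨E2, hE2⟩ : ∃ E2 : Finset ℕ, E2 = (Icc 1 B).filter fun b : ℕ => K0 < Sg G b c z :=
      ⟨_, rfl⟩
    obtain ⟨E3, hE3⟩ : ∃ E3 : Finset ℕ, E3 = (Icc 1 B).filter fun b : ℕ =>
        δ < |Sg G b c Z - Sg G b c z| := ⟨_, rfl⟩
    -- the inclusion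
    have hsub : (Icc 1 B).filter (fun b : ℕ => ¬ |(cnt G b c T : ℝ) -
        Sg G b c Z * ∑ t ∈ (Icc 1 T).filter (fun t => 2 ≤ fp G b c t),
          1 / Real.log ((fp G b c t : ℤ) : ℝ)| ≤ δ0 * (T / Real.log T)) ⊆
        (Icc 1 (2 * hh B (I + 1)) ∪ (E2 ∪ E3)) ∪
        (range I).biUnion fun i => M i T ∪ M i T1 := by
      intro b hb
      rw [mem_filter, mem_Icc] at hb
      obtain ⟨⟨hb1, hbB⟩, hno⟩ := hb
      by_contra hcon
      rw [mem_union, mem_union, mem_union, not_or, not_or, not_or] at hcon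
      obtain ⟨⟨n1, n2, n2'⟩, n3⟩ := hcon
      apply hno
      have n1' : 2 * hh B (I + 1) < b := by
        by_contra h
        exact n1 (mem_Icc.2 ⟨hb1, not_lt.1 h⟩)
      have m2 : Sg G b c z ≤ K0 := by
        by_contra h
        apply n2
        rw [hE2]
        exact mem_filter.2 ⟨mem_Icc.2 ⟨hb1, hbB⟩, not_le.1 h⟩
      have m3 : |Sg G b c Z - Sg G b c z| ≤ δ := by
        by_contra h
        apply n2'
        rw [hE3]
        exact mem_filter.2 ⟨mem_Icc.2 ⟨hb1, hbB⟩, not_le.1 h⟩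
      rcases cover' B b I hbB with h | ⟨i, hi, hi1, hi2⟩
      · omega
      have n3' : ∀ τ, τ = T ∨ τ = T1 →
          |∑ t ∈ Icc 1 τ, EE z (fp G b c t)| ≤ δ * T := by
        intro τ hτ
        by_contra h
        push Not at h
        apply n3
        rw [mem_biUnion]
        refine ⟨i, mem_range.2 hi, ?_⟩
        rw [mem_union]
        have hmem : b ∈ M i τ := by
          rw [hM]
          exact mem_filter.2 ⟨mem_Ioc.2 ⟨hi1, hi2⟩, h⟩
        rcases hτ with rfl | rfl
        · exact Or.inl hmem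
        · exact Or.inr hmem
      have hS : ∀ τ, τ = T ∨ τ = T1 →
          |∑ t ∈ Icc 1 τ, lp (fp G b c t) - 2 * (Sg G b c Z / 2) * τ| ≤
            3 * δ * T := by
        intro τ hτ
        have hτT : (τ : ℝ) ≤ T := by
          rcases hτ with rfl | rfl
          · exact le_rfl
          · exact hT1T'
        have e1 := n3' τ hτ
        have e2 := hloc b 0 τ (Nat.zero_le _)
        have e3 : (Ioc 0 τ) = Icc 1 τ := by
          ext t
          simp only [mem_Ioc, mem_Icc]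
          omega
        rw [e3, Nat.cast_zero, sub_zero] at e2
        have e4 : ∑ t ∈ Icc 1 τ, lp (fp G b c t) =
            ∑ t ∈ Icc 1 τ, EE z (fp G b c t) +
              ∑ t ∈ Icc 1 τ, lz z (fp G b c t) := by
          rw [← Finset.sum_add_distrib]
          refine Finset.sum_congr rfl fun t _ => ?_
          unfold Pool.Agent.N728.QL.EE
          ring
        have e5 : |(τ : ℝ) * Sg G b c z - 2 * (Sg G b c Z / 2) * τ| ≤ δ * T := by
          have : (τ : ℝ) * Sg G b c z - 2 * (Sg G b c Z / 2) * τ =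
            -(τ * (Sg G b c Z - Sg G b c z)) := by ring
          rw [this, abs_neg, abs_mul, abs_of_nonneg (Nat.cast_nonneg τ), mul_comm δ]
          gcongr
        rw [e4]
        rw [abs_le] at *
        constructor <;> linarith [e1.1, e1.2, e2.1, e2.2, e5.1, e5.2]
      have hhI : B ≤ 2 ^ (I + 1) * hh B (I + 1) := hh_ge B (I + 1)
      have hbig2 : 8 * c.natAbs + 16 ≤ hh B (I + 1) := by
        have := g4.trans hhI
        exact Nat.le_of_mul_le_mul_left this (by positivity)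
      have hbb : 8 * c.natAbs + 16 ≤ b := by omega
      have hbR : (B : ℝ) ≤ 2 ^ I * b := by
        have e1 : B ≤ 2 ^ I * b := by
          calc B ≤ 2 ^ (I + 1) * hh B (I + 1) := hhI
            _ = 2 ^ I * (2 * hh B (I + 1)) := by ring
            _ ≤ 2 ^ I * b := Nat.mul_le_mul_left _ n1'.le
        exact_mod_cast e1
      have hb0 : (1 : ℝ) ≤ b := by exact_mod_cast hb1
      have hcB : c.natAbs ≤ B := by omega
      have hlowv : ∀ t : ℕ, 1 ≤ t → t ≤ T → (t : ℝ) * b / 2 ≤ ((fp G b c t : ℤ) : ℝ) := by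
        intro t ht htT
        refine val_low' ?_ hbb ht
        have e1 := hGlow t ht htT
        have e2 : 1 / 2 ^ (I + 3) * (B : ℝ) ≤ b / 4 := by
          calc 1 / 2 ^ (I + 3) * (B : ℝ) ≤ 1 / 2 ^ (I + 3) * (2 ^ I * b) := by gcongr
            _ = b / 8 := by
              rw [show (2 : ℝ) ^ (I + 3) = 8 * 2 ^ I by ring]
              field_simp
            _ ≤ b / 4 := by linarith
        linarith
      have hupv : ∀ t : ℕ, 1 ≤ t → t ≤ T →
          ((fp G b c t : ℤ) : ℝ) ≤ (T : ℝ) * B * (CU * K + 2) :=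
        fun t ht htT => val_up hCU hT' hbB hcB g1 ht htT
      have hlowb : ∀ t : ℕ, 1 ≤ t → t ≤ T → (b : ℝ) / 2 ≤ ((fp G b c t : ℤ) : ℝ) := by
        intro t ht htT
        refine le_trans ?_ (hlowv t ht htT)
        have ht' : (1 : ℝ) ≤ t := by exact_mod_cast ht
        nlinarith
      have hposv : ∀ t : ℕ, 1 ≤ t → t ≤ T → 0 < ((fp G b c t : ℤ) : ℝ) := fun t ht htT =>
        lt_of_lt_of_le (by linarith) (hlowb t ht htT)
      have hl : lam / 2 ≤ Real.log ((b : ℝ) / 2) := by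
        have e1 : lam ≤ (I + 1 : ℕ) * Real.log 2 + Real.log ((b : ℝ) / 2) := by
          rw [hlam, ← Real.log_pow, ← Real.log_mul (by positivity) (by positivity)]
          refine Real.log_le_log hB0 (hbR.trans (le_of_eq ?_))
          rw [pow_succ]
          ring
        push_cast at e1
        linarith
      have hlow' : ∀ t : ℕ, 1 ≤ t → t ≤ T → lam / 2 ≤ Real.log (fp G b c t) := fun t ht htT =>
        hl.trans (Real.log_le_log (by linarith) (hlowb t ht htT))
      have hup' : ∀ t : ℕ, 1 ≤ t → t ≤ T → Real.log (fp G b c t) ≤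
          Real.log ((T : ℝ) * B * (CU * K + 2)) := fun t ht htT =>
        Real.log_le_log (hposv t ht htT) (hupv t ht htT)
      have hmid' : ∀ t : ℕ, T1 < t → t ≤ T →
          Real.log ((T : ℝ) * B * (CU * K + 2)) - cJ ≤ Real.log (fp G b c t) := by
        intro t ht htT
        have ht1 : 1 ≤ t := by omega
        have h3' : T ≤ t * J := by
          rw [hT1d] at ht
          exact ((Nat.div_lt_iff_lt_mul (by omega)).1 ht).le
        have h3 : (T : ℝ) ≤ t * J := by exact_mod_cast h3'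
        have h4 : (T : ℝ) * B * (CU * K + 2) ≤ Rt * ((fp G b c t : ℤ) : ℝ) := by
          calc (T : ℝ) * B * (CU * K + 2) ≤ (t * J) * (2 ^ I * b) * (CU * K + 2) := by gcongr
            _ = Rt * ((t : ℝ) * b / 2) := by rw [hRt]; ring
            _ ≤ Rt * ((fp G b c t : ℤ) : ℝ) := by
                have := hlowv t ht1 htT
                gcongr
        have h5 := Real.log_le_log (by positivity) h4
        rw [Real.log_mul (by positivity) (hposv t ht1 htT).ne', ← hcJ] at h5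
        linarith
      have hLlow : lam / 2 ≤ Real.log ((T : ℝ) * B * (CU * K + 2)) :=
        (hlow' T hT1 le_rfl).trans (hup' T hT1 le_rfl)
      have hKb0 : 0 ≤ Sg G b c Z / 2 := by
        have := Sg_nonneg G b c Z
        linarith
      have hKb1 : Sg G b c Z / 2 ≤ KP := by
        rw [hKP]
        have e1 := (abs_le.1 m3).2
        have e2 : δ ≤ 1 := by rw [hδ]; linarith
        linarith
      have hfin := ptg (F := fun t => fp G b c t) hJ1 hT1d hlam0 hcJ0 g10 hLlow hlow' hup' hmid'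
        hKb0 hKb1 (E := 3 * δ * T) (e := e) (by positivity) (hS T1 (Or.inr rfl))
        (hS T (Or.inl rfl)) (by rw [hδ]; nlinarith) he1 he0 hJK (by
          rw [div_le_iff₀ he0] at g11
          linarith)
      have hfilter : (Icc 1 T).filter (fun t => 2 ≤ fp G b c t) = Icc 1 T := by
        apply Finset.filter_true_of_mem
        intro t ht
        rw [mem_Icc] at ht
        have e1 := hlowb t ht.1 ht.2
        have e2 : (16 : ℝ) ≤ b := by
          have : 16 ≤ b := by omega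
          exact_mod_cast this
        have e3 : (2 : ℝ) ≤ ((fp G b c t : ℤ) : ℝ) := by linarith
        exact_mod_cast e3
      rw [hfilter]
      have hcnt : (cnt G b c T : ℝ) =
          (((Icc 1 T).filter (fun t : ℕ => (fp G b c t).toNat.Prime)).card : ℝ) := by
        unfold cnt
        rfl
      have h2K : 2 * (Sg G b c Z / 2) = Sg G b c Z := by ring
      rw [h2K] at hfin
      rw [hcnt]
      refine hfin.trans ?_
      have hlogT : Real.log T ≤ lam := by
        rw [hlam]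
        exact Real.log_le_log hT0 hTB
      have hlogT0 : 0 < Real.log T := Real.log_pos (by linarith)
      calc e * T / lam ≤ δ0 * T / lam := by gcongr
        _ ≤ δ0 * T / Real.log T := by gcongr
        _ = δ0 * (T / Real.log T) := by ring
    have hcard := Finset.card_le_card hsub
    have c1 : (((Icc 1 (2 * hh B (I + 1)) ∪ (E2 ∪ E3)) ∪
        (range I).biUnion fun i => M i T ∪ M i T1).card : ℝ) ≤ e1 * B := by
      have d1 : (((range I).biUnion fun i => M i T ∪ M i T1).card : ℝ) ≤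
          ∑ i ∈ range I, (((M i T).card : ℝ) + ((M i T1).card : ℝ)) := by
        have : ((range I).biUnion fun i => M i T ∪ M i T1).card ≤
            ∑ i ∈ range I, ((M i T).card + (M i T1).card) :=
          Finset.card_biUnion_le.trans (Finset.sum_le_sum fun i _ => Finset.card_union_le _ _)
        exact_mod_cast this
      have d2 : ∑ i ∈ range I, (((M i T).card : ℝ) + ((M i T1).card : ℝ)) ≤ e / 4 * B := by
        calc ∑ i ∈ range I, (((M i T).card : ℝ) + ((M i T1).card : ℝ))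
            ≤ ∑ _i ∈ range I, (e / (8 * (I + 1)) * B + e / (8 * (I + 1)) * B) := by
              refine Finset.sum_le_sum fun i hi => ?_
              rw [mem_range] at hi
              refine add_le_add (hMcard i hi T ?_ le_rfl) (hMcard i hi T1 hT1J hT1T)
              nlinarith
          _ = (I / (I + 1)) * (e / 4 * B) := by
              rw [Finset.sum_const, card_range, nsmul_eq_mul]
              field_simp
              ring
          _ ≤ 1 * (e / 4 * B) := by
              gcongr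
              rw [div_le_one (by positivity)]
              linarith
          _ = e / 4 * B := one_mul _
      have d3 : (((Icc 1 (2 * hh B (I + 1))).card : ℕ) : ℝ) ≤ e1 / 4 * B := by
        rw [Nat.card_Icc]
        have q1 := hh_up B (I + 1)
        have e2 : (B : ℝ) / 2 ^ I ≤ e1 / 8 * B := by
          rw [div_le_iff₀ (by positivity)]
          rw [div_le_iff₀ he10] at hI
          nlinarith
        rw [div_le_iff₀ he10] at g5
        have e3 : ((2 * hh B (I + 1) + 1 - 1 : ℕ) : ℝ) = 2 * hh B (I + 1) := by simp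
        rw [e3]
        have e4 : (B : ℝ) / 2 ^ (I + 1) = B / 2 ^ I / 2 := by
          rw [pow_succ, div_div]
        rw [e4] at q1
        linarith
      have d4 : (E2.card : ℝ) ≤ e / 8 * B := by
        rw [hE2]
        refine markov (Icc 1 B) (fun b : ℕ => Sg G b c z) (fun b => Sg_nonneg G b c z) hK0p ?_
        refine (hB2 B g2).trans (le_of_eq ?_)
        rw [hK0]
        field_simp
      have d4' : (E3.card : ℝ) ≤ e / 8 * B := by
        rw [hE3]
        refine hTLS.trans ?_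
        have : δ ≤ e / 8 := by rw [hδ]; linarith
        gcongr
      have d5 := Finset.card_union_le (Icc 1 (2 * hh B (I + 1)) ∪ (E2 ∪ E3))
        ((range I).biUnion fun i => M i T ∪ M i T1)
      have d6 := Finset.card_union_le (Icc 1 (2 * hh B (I + 1))) (E2 ∪ E3)
      have d6' := Finset.card_union_le E2 E3
      have d5' : (((Icc 1 (2 * hh B (I + 1)) ∪ (E2 ∪ E3)) ∪
        (range I).biUnion fun i => M i T ∪ M i T1).card : ℝ) ≤
        ((Icc 1 (2 * hh B (I + 1))).card : ℝ) + (E2.card : ℝ) + (E3.card : ℝ) +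
        (((range I).biUnion fun i => M i T ∪ M i T1).card : ℝ) := by
        have : ((Icc 1 (2 * hh B (I + 1)) ∪ (E2 ∪ E3)) ∪
          (range I).biUnion fun i => M i T ∪ M i T1).card ≤
          (Icc 1 (2 * hh B (I + 1))).card + E2.card + E3.card +
          ((range I).biUnion fun i => M i T ∪ M i T1).card := by omega
        exact_mod_cast this
      have d7 : 0 ≤ e * B := by positivity
      have d8 : e * B ≤ e1 * B := by gcongr
      linarith
    calc (((Icc 1 B).filter _).card : ℝ) ≤ _ := by exact_mod_cast hcard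
      _ ≤ e1 * B := c1
      _ ≤ ε * B := by gcongr
  obtain ⟨B0, hB0⟩ := Filter.eventually_atTop.1 hev
  refine ⟨B0, fun B hB T Z hT hT' hGl hzZ hZA => ?_⟩
  have := hB0 B hB T Z hT hT' hGl hzZ hZA
  convert this


end

end Pool.Agent.H37Z.HD
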