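import Pool.Agent.N170.QG.AVS

/-!
The singular series of `t (G(t) + b) + c` is bounded below for almost all `b` without a fixed prime divisor.
-/

set_option autoImplicit false

namespace Pool.Agent.H37Z.HD

open Finset Pool.Agent.N728.QG Pool.Agent.N170.QG

noncomputable section

/-- no fixed prime divisor -/
def NF (G : Polynomial ℤ) (b c : ℤ) : Prop := ∀ p : ℕ, p.Prime → om G b c p < p

lemma fac_low (G : Polynomial ℤ) (b : ℕ) (c : ℤ) {p : ℕ} (hp : p.Prime) (h : om G (b : ℤ) c p < p) :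
    1 / (p : ℝ) ≤ 1 + xx G c p b := by
  rw [← fac_eq G c hp b]
  have h1 : (2 : ℝ) ≤ p := by exact_mod_cast hp.two_le
  have h2 : (om G (b : ℤ) c p : ℝ) + 1 ≤ p := by exact_mod_cast h
  have h3 : (0 : ℝ) < p := by linarith
  have h4 : 0 < 1 - 1 / (p : ℝ) := by
    rw [sub_pos, div_lt_one h3]; linarith
  have h5 : 1 / (p : ℝ) ≤ 1 - (om G (b : ℤ) c p : ℝ) / p := by
    rw [le_sub_iff_add_le, ← add_div, div_le_one h3]; linarith
  rw [le_div_iff₀ h4]
  have h6 : (1 : ℝ) - 1 / p ≤ 1 := by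
    have : 0 ≤ 1 / (p : ℝ) := by positivity
    linarith
  have h7 : 0 ≤ 1 / (p : ℝ) := by positivity
  calc 1 / (p : ℝ) * (1 - 1 / p) ≤ 1 / (p : ℝ) * 1 := mul_le_mul_of_nonneg_left h6 h7
    _ ≤ _ := by linarith

/-- the lower bound for the small primes -/
def kz (z : ℕ) : ℝ := ∏ p ∈ (Ioc 0 z).filter Nat.Prime, 1 / (p : ℝ)

lemma kz_pos (z : ℕ) : 0 < kz z := by
  unfold kz
  refine prod_pos fun p hp => ?_
  have := (mem_filter.1 hp).2.pos
  have : (0 : ℝ) < p := by exact_mod_cast this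
  positivity

lemma kz_anti {Z z : ℕ} (h : Z ≤ z) : kz z ≤ kz Z := by
  unfold kz
  have hsub : (Ioc 0 Z).filter Nat.Prime ⊆ (Ioc 0 z).filter Nat.Prime := by
    intro p hp
    rw [mem_filter, mem_Ioc] at hp ⊢
    exact ⟨⟨hp.1.1, hp.1.2.trans h⟩, hp.2⟩
  refine Finset.prod_le_prod_of_subset_of_le_one hsub ?_ ?_
  · intro p _
    positivity
  · intro p hp _
    have := (mem_filter.1 hp).2.one_le
    have : (1 : ℝ) ≤ p := by exact_mod_cast this
    rw [div_le_one (by linarith)]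
    exact this

lemma kz_le (G : Polynomial ℤ) (b : ℕ) (c : ℤ) (z : ℕ) (h : NF G b c) : kz z ≤ Sg G (b : ℤ) c z := by
  rw [Sg_eq]
  unfold kz
  refine prod_le_prod (fun p _ => by positivity) fun p hp => ?_
  have hp' := (mem_filter.1 hp).2
  exact fac_low G b c hp' (h p hp')

/-- for almost all `b` without a fixed prime divisor the singular series is at least `κ` -/
theorem kap (G : Polynomial ℤ) (c : ℤ) (hc : c ≠ 0) (ε : ℝ) (hε : 0 < ε) :
    ∃ κ : ℝ, 0 < κ ∧ ∀ A : ℕ, ∃ B0 : ℕ, ∀ B : ℕ, B0 ≤ B → ∀ Z : ℕ, (Z : ℝ) ≤ Real.log B ^ A →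
      ∃ X : Finset ℕ, (X.card : ℝ) ≤ ε * B ∧ ∀ b ∈ Icc 1 B, b ∉ X → NF G b c → κ ≤ Sg G b c Z := by
  classical
  obtain ⟨E, hE⟩ : ∃ E : ℝ, E = (G.natDegree + 1 : ℝ) := ⟨_, rfl⟩
  have hE1 : 1 ≤ E := by rw [hE]; have : (0 : ℝ) ≤ (G.natDegree : ℝ) := by positivity
                         linarith
  obtain ⟨δ, hδ⟩ : ∃ δ : ℝ, δ = 1 / 8 := ⟨_, rfl⟩
  have hδ0 : 0 < δ := by rw [hδ]; norm_num
  obtain ⟨z, hzd⟩ : ∃ z, z = c.natAbs + 2 + ⌈2 * E⌉₊ + ⌈4 * E ^ 2 / δ⌉₊ + ⌈16 * E ^ 2 / (ε * δ ^ 2)⌉₊ := ⟨_, rfl⟩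
  have hz2 : 2 ≤ z := by omega
  have hzr : (2 : ℝ) ≤ z := by exact_mod_cast hz2
  have hcz : ∀ p : ℕ, p.Prime → z < p → ¬ (p : ℤ) ∣ c := by
    intro p _ hzp hd
    have h1 : p ∣ c.natAbs := Int.natCast_dvd.1 hd
    have h2 := Nat.le_of_dvd (Int.natAbs_pos.2 hc) h1
    omega
  have hzE : 2 * E ≤ z := by
    refine (Nat.le_ceil _).trans ?_
    exact_mod_cast (by omega : ⌈2 * E⌉₊ ≤ z)
  have hzE2 : 4 * E ^ 2 / δ ≤ z := by
    refine (Nat.le_ceil _).trans ?_
    exact_mod_cast (by omega : ⌈4 * E ^ 2 / δ⌉₊ ≤ z)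
  have hzE3 : 16 * E ^ 2 / (ε * δ ^ 2) ≤ z := by
    refine (Nat.le_ceil _).trans ?_
    exact_mod_cast (by omega : ⌈16 * E ^ 2 / (ε * δ ^ 2)⌉₊ ≤ z)
  refine ⟨kz z / 2, by have := kz_pos z; positivity, fun A => ?_⟩
  have hlog : ∃ B2 : ℕ, ∀ B : ℕ, B2 ≤ B → Real.log B ^ (2 * A) ≤ ε * δ ^ 2 / (20 * E ^ 2) * B := by
    have h1 := (Real.isLittleO_pow_log_id_atTop (n := 2 * A)).bound
      (show 0 < ε * δ ^ 2 / (20 * E ^ 2) by positivity)
    have h2 := (tendsto_natCast_atTop_atTop (R := ℝ)).eventually h1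
    obtain ⟨B2, hB2⟩ := Filter.eventually_atTop.1 h2
    refine ⟨B2, fun B hB => ?_⟩
    have := hB2 B hB
    simp only [id, Real.norm_eq_abs, Nat.abs_cast] at this
    exact (le_abs_self _).trans this
  obtain ⟨B2, hB2⟩ := hlog
  refine ⟨B2 + 1, fun B hB Z hZ => ?_⟩
  have hBr : (1 : ℝ) ≤ B := by exact_mod_cast (by omega : 1 ≤ B)
  set P := (Ioc z Z).filter Nat.Prime with hP
  have hPp : ∀ p ∈ P, p.Prime := fun p hp => (Finset.mem_filter.1 hp).2
  have hPz : ∀ p ∈ P, z < p := fun p hp => (mem_Ioc.1 (Finset.mem_filter.1 hp).1).1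
  have hPr : ∀ p ∈ P, (z : ℝ) ≤ (p : ℝ) - 1 := fun p hp => by
    have h1 : z + 1 ≤ p := hPz p hp
    have h2 : ((z : ℝ) + 1) ≤ p := by exact_mod_cast h1
    linarith
  refine ⟨(Icc 1 B).filter (fun b : ℕ => δ < |∑ p ∈ P, xx G c p b|), ?_, ?_⟩
  · have h1 : (((Icc 1 B).filter (fun b : ℕ => δ < |∑ p ∈ P, xx G c p b|)).card : ℝ) * δ ^ 2 ≤
        ((B : ℝ) + 1) / z + 2 * E ^ 2 * B / z + 5 * E ^ 2 * Z ^ 2 := by
      calc (((Icc 1 B).filter (fun b : ℕ => δ < |∑ p ∈ P, xx G c p b|)).card : ℝ) * δ ^ 2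
          = ∑ b ∈ (Icc 1 B).filter (fun b : ℕ => δ < |∑ p ∈ P, xx G c p b|), δ ^ 2 := by
            rw [Finset.sum_const, nsmul_eq_mul]
        _ ≤ ∑ b ∈ (Icc 1 B).filter (fun b : ℕ => δ < |∑ p ∈ P, xx G c p b|),
              (∑ p ∈ P, xx G c p b) ^ 2 := by
            refine Finset.sum_le_sum fun b hb => ?_
            rw [← sq_abs (∑ p ∈ P, xx G c p b)]
            exact pow_le_pow_left₀ hδ0.le (Finset.mem_filter.1 hb).2.le 2
        _ ≤ ∑ b ∈ Icc 1 B, (∑ p ∈ P, xx G c p b) ^ 2 :=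
            Finset.sum_le_sum_of_subset_of_nonneg (Finset.filter_subset _ _)
              fun b _ _ => sq_nonneg _
        _ ≤ _ := by rw [hE]; exact second G c z Z B hz2 hcz
    have hz0 : (0 : ℝ) < z := by linarith
    have h2 : ((B : ℝ) + 1) / z + 2 * E ^ 2 * B / z ≤ ε / 4 * B * δ ^ 2 := by
      rw [← add_div, div_le_iff₀ hz0]
      have h3 : 16 * E ^ 2 ≤ z * (ε * δ ^ 2) := by
        rwa [div_le_iff₀ (by positivity)] at hzE3
      have h4 : (1 : ℝ) ≤ E ^ 2 := one_le_pow₀ hE1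
      have h5 : (B : ℝ) + 1 + 2 * E ^ 2 * B ≤ 4 * E ^ 2 * B := by nlinarith
      have h6 : 16 * E ^ 2 * B ≤ z * (ε * δ ^ 2) * B :=
        mul_le_mul_of_nonneg_right h3 (by positivity)
      have h6' : ε / 4 * B * δ ^ 2 * z = (z * (ε * δ ^ 2) * B) / 4 := by ring
      rw [h6']
      linarith
    have h7 : 5 * E ^ 2 * (Z : ℝ) ^ 2 ≤ ε / 4 * B * δ ^ 2 := by
      have h8 : (Z : ℝ) ^ 2 ≤ Real.log B ^ (2 * A) := by
        rw [mul_comm 2 A, pow_mul]
        exact pow_le_pow_left₀ (by positivity) hZ 2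
      have h9 := hB2 B (by omega)
      have h10 : (Z : ℝ) ^ 2 ≤ ε * δ ^ 2 / (20 * E ^ 2) * B := h8.trans h9
      calc 5 * E ^ 2 * (Z : ℝ) ^ 2 ≤ 5 * E ^ 2 * (ε * δ ^ 2 / (20 * E ^ 2) * B) :=
            mul_le_mul_of_nonneg_left h10 (by positivity)
        _ = ε / 4 * B * δ ^ 2 := by
            have : E ≠ 0 := by linarith
            field_simp
            ring
    have h11 : (((Icc 1 B).filter (fun b : ℕ => δ < |∑ p ∈ P, xx G c p b|)).card : ℝ) * δ ^ 2 ≤
        (ε * B) * δ ^ 2 := by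
      have : 0 ≤ ε / 4 * B * δ ^ 2 := by positivity
      have e : ε * B * δ ^ 2 = 4 * (ε / 4 * B * δ ^ 2) := by ring
      rw [e]
      linarith
    exact le_of_mul_le_mul_right h11 (by positivity)
  · intro b hb hbX hnf
    have hb2 : |∑ p ∈ P, xx G c p b| ≤ δ := by
      by_contra h
      exact hbX (mem_filter.2 ⟨hb, not_le.1 h⟩)
    rcases Nat.lt_or_ge z Z with hzZ | hzZ
    · have hx : ∀ p ∈ P, |xx G c p b| ≤ 1 / 2 := fun p hp => by
        refine (xx_abs G c (hPp p hp) (hcz p (hPp p hp) (hPz p hp)) b).trans ?_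
        rw [← hE]
        have h1 := hPr p hp
        rw [div_le_iff₀ (by linarith)]
        linarith
      have hsq : ∑ p ∈ P, xx G c p b ^ 2 ≤ 2 * E ^ 2 / z := by
        calc ∑ p ∈ P, xx G c p b ^ 2 ≤ ∑ p ∈ P, 2 * E ^ 2 * (1 / ((p : ℝ) * (p - 1))) := by
              refine Finset.sum_le_sum fun p hp => ?_
              have h1 := hPr p hp
              have h3 : (0 : ℝ) < (p : ℝ) - 1 := by linarith
              have hp0 : (0 : ℝ) < p := by linarith
              calc xx G c p b ^ 2 = |xx G c p b| ^ 2 := (sq_abs _).symm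
                _ ≤ (E / ((p : ℝ) - 1)) ^ 2 := by
                    rw [hE]
                    exact pow_le_pow_left₀ (abs_nonneg _)
                      (xx_abs G c (hPp p hp) (hcz p (hPp p hp) (hPz p hp)) b) 2
                _ = E ^ 2 * (1 / ((p : ℝ) - 1) ^ 2) := by field_simp
                _ ≤ E ^ 2 * (2 * (1 / ((p : ℝ) * (p - 1)))) := by
                    refine mul_le_mul_of_nonneg_left ?_ (by positivity)
                    rw [mul_one_div, div_le_div_iff₀ (by positivity) (by positivity)]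
                    nlinarith
                _ = _ := by ring
          _ = 2 * E ^ 2 * ∑ p ∈ P, 1 / ((p : ℝ) * (p - 1)) := by rw [Finset.mul_sum]
          _ ≤ 2 * E ^ 2 * (1 / z) :=
              mul_le_mul_of_nonneg_left (tel_prime z (by omega) Z) (by positivity)
          _ = _ := by ring
      have hzδ : 4 * E ^ 2 / z ≤ δ := by
        rw [div_le_iff₀ hδ0] at hzE2
        rw [div_le_iff₀ (by linarith)]
        linarith
      have h4 : 2 * (2 * E ^ 2 / z) = 4 * E ^ 2 / z := by ring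
      have hR := ratio P (fun p => xx G c p b) hx (2 * δ) (by rw [hδ]; norm_num) (by linarith)
      rw [Sg_split G c hzZ.le b]
      have h5 : 1 / 2 ≤ ∏ p ∈ P, (1 + xx G c p b) := by
        have := (abs_le.1 hR).1
        rw [hδ] at this
        linarith
      have h6 := kz_le G b c z hnf
      have h7 := kz_pos z
      calc kz z / 2 = kz z * (1 / 2) := by ring
        _ ≤ Sg G (b : ℤ) c z * ∏ p ∈ P, (1 + xx G c p b) :=
          mul_le_mul h6 h5 (by norm_num) (by linarith)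
    · have h6 := kz_le G b c Z hnf
      have h7 := kz_pos z
      have h8 := kz_anti hzZ
      linarith

end

end Pool.Agent.H37Z.HD
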