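import Pool.Agent.H37Z.HD.Fin
import Pool.Agent.H37Z.HD.Kap
import Pool.Agent.N728.QG.All

/-!
Prime values of `t (G(t) + b n) + c` for almost all `n`, `G` of degree at least 2, with a lower bound for the singular
series and for the least prime value.
-/

set_option autoImplicit false

namespace Pool.Agent.H37Z.HD

open Finset Pool.Agent.N728.QG
open Pool.Agent.N279.QG (poly_low poly_up)
open Pool.Agent.N199.QL (ev_pow ev_log ev_ge)

noncomputable section

theorem poly_abs (G : Polynomial ℤ) :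
    ∃ C : ℕ, ∀ u : ℕ, 1 ≤ u → |G.eval (u : ℤ)| ≤ C * (u : ℤ) ^ G.natDegree := by
  obtain ⟨C1, h1⟩ := poly_up G
  obtain ⟨C2, h2⟩ := poly_up (-G)
  refine ⟨C1 + C2, fun u hu => ?_⟩
  have e1 := h1 u hu
  have e2 := h2 u hu
  rw [Polynomial.natDegree_neg, Polynomial.eval_neg] at e2
  have h0 : (0 : ℤ) ≤ (u : ℤ) ^ G.natDegree := by positivity
  have h3 : (0 : ℤ) ≤ (C1 : ℤ) * (u : ℤ) ^ G.natDegree := by positivity
  have h4 : (0 : ℤ) ≤ (C2 : ℤ) * (u : ℤ) ^ G.natDegree := by positivity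
  push_cast
  rw [add_mul, abs_le]
  constructor <;> linarith

/-- for all `n ≤ N` outside a small set: lower bound for the singular series, the asymptotic formula, and a prime value
`t (G(t) + m n) + c` with `t < n` -/
theorem main (G : Polynomial ℤ) (c : ℤ) (m : ℕ) (hd : 2 ≤ G.natDegree) (hm : 1 ≤ m) (hc : c ≠ 0) :
    ∀ ε : ℝ, 0 < ε → ∃ κ η : ℝ, 0 < κ ∧ 0 < η ∧ ∀ (δ : ℝ) (K C2 : ℕ), 0 < δ → ∃ z0 : ℕ, ∀ A : ℕ, ∃ N0 : ℕ,
    ∀ N : ℕ, N0 ≤ N → ∀ T Z : ℕ, (N : ℝ) ≤ (T : ℝ) ^ G.natDegree * Real.log N ^ C2 → T ^ G.natDegree ≤ K * N →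
    (0 < G.leadingCoeff ∨ (T : ℝ) ^ G.natDegree ≤ η * N) → z0 ≤ Z → (Z : ℝ) ≤ Real.log N ^ A →
    ∃ X : Finset ℕ, (X.card : ℝ) ≤ ε * N ∧ ∀ n ∈ Icc 1 N, n ∉ X → NF G ((m * n : ℕ) : ℤ) c →
      κ ≤ Sg G ((m * n : ℕ) : ℤ) c Z ∧
      |(cnt G ((m * n : ℕ) : ℤ) c T : ℝ) - Sg G ((m * n : ℕ) : ℤ) c Z *
        ∑ t ∈ (Icc 1 T).filter (fun t => 2 ≤ fp G ((m * n : ℕ) : ℤ) c t),
          1 / Real.log ((fp G ((m * n : ℕ) : ℤ) c t : ℤ) : ℝ)| ≤ δ * (T / Real.log T) ∧
      ∃ t : ℕ, 1 ≤ t ∧ t ≤ T ∧ t < n ∧ (fp G ((m * n : ℕ) : ℤ) c t).toNat.Prime := by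
  classical
  intro ε hε
  have hm0 : (1 : ℝ) ≤ m := by exact_mod_cast hm
  have hmp : (0 : ℝ) < m := by linarith
  obtain ⟨CU, hCU⟩ := poly_abs G
  obtain ⟨η1, hη1, hfin⟩ := fin2 G c hd hc (aMCP G c (by omega) hc) Pool.Agent.N878.QG.t_LOC
    Pool.Agent.N170.QG.t_AVS Pool.Agent.N170.QG.t_TLS (ε / (4 * m)) (by positivity)
  obtain ⟨κ, hκ, hkap⟩ := kap G c hc (ε / (4 * m)) (by positivity)
  obtain ⟨η2, hη2d⟩ : ∃ η2, η2 = min η1 (ε / 16) := ⟨_, rfl⟩
  have hη2 : 0 < η2 := by rw [hη2d]; exact lt_min hη1 (by positivity)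
  have hη21 : η2 ≤ η1 := by rw [hη2d]; exact min_le_left _ _
  have hη2ε : η2 ≤ ε / 16 := by rw [hη2d]; exact min_le_right _ _
  refine ⟨κ, η2 / (CU + 1), hκ, by positivity, fun δ K C2 hδ => ?_⟩
  have hE0 : (0 : ℝ) < G.natDegree := by exact_mod_cast (by omega : 0 < G.natDegree)
  obtain ⟨δ', hδ'd⟩ : ∃ δ', δ' = min δ (κ / (12 * G.natDegree)) := ⟨_, rfl⟩
  have hδ' : 0 < δ' := by rw [hδ'd]; exact lt_min hδ (by positivity)
  have hδ'1 : δ' ≤ δ := by rw [hδ'd]; exact min_le_left _ _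
  have hδ'2 : δ' ≤ κ / (12 * G.natDegree) := by rw [hδ'd]; exact min_le_right _ _
  obtain ⟨z0, hz0⟩ := hfin δ' K (C2 + 1) hδ'
  refine ⟨z0, fun A => ?_⟩
  obtain ⟨B1, hB1⟩ := hz0 A
  obtain ⟨B2, hB2⟩ := hkap A
  obtain ⟨CG, hCG⟩ : ∃ CG : ℕ, 0 < G.leadingCoeff → ∀ u : ℕ, -(CG : ℤ) ≤ G.eval (u : ℤ) := by
    by_cases hl : 0 < G.leadingCoeff
    · obtain ⟨C, hC⟩ := poly_low (by omega : 1 ≤ G.natDegree) hl
      exact ⟨C, fun _ => hC⟩
    · exact ⟨0, fun h => absurd h hl⟩
  have hev : ∀ᶠ N : ℕ in Filter.atTop, ∀ T Z : ℕ,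
      (N : ℝ) ≤ (T : ℝ) ^ G.natDegree * Real.log N ^ C2 → T ^ G.natDegree ≤ K * N →
      (0 < G.leadingCoeff ∨ (T : ℝ) ^ G.natDegree ≤ η2 / (CU + 1) * N) → z0 ≤ Z → (Z : ℝ) ≤ Real.log N ^ A →
      ∃ X : Finset ℕ, (X.card : ℝ) ≤ ε * N ∧ ∀ n ∈ Icc 1 N, n ∉ X → NF G ((m * n : ℕ) : ℤ) c →
        κ ≤ Sg G ((m * n : ℕ) : ℤ) c Z ∧
        |(cnt G ((m * n : ℕ) : ℤ) c T : ℝ) - Sg G ((m * n : ℕ) : ℤ) c Z *
          ∑ t ∈ (Icc 1 T).filter (fun t => 2 ≤ fp G ((m * n : ℕ) : ℤ) c t),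
            1 / Real.log ((fp G ((m * n : ℕ) : ℤ) c t : ℤ) : ℝ)| ≤ δ * (T / Real.log T) ∧
        ∃ t : ℕ, 1 ≤ t ∧ t ≤ T ∧ t < n ∧ (fp G ((m * n : ℕ) : ℤ) c t).toNat.Prime := by
    filter_upwards [Filter.eventually_ge_atTop 3, Filter.eventually_ge_atTop B1, Filter.eventually_ge_atTop B2,
      ev_log 1, ev_log m, ev_ge (CG / η2), ev_ge (64 * (K + 1) / ε ^ 2), ev_ge (CU * K + m + c.natAbs + 1),
      ev_ge (16 * (c.natAbs + 2) / ε), ev_pow 1 (2 * C2), ev_ge 16] with N g1 g2 g3 g4 g5 g6 g7 g8 g9 g10 g11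
    intro T Z hT1 hT2 hT3 hZ1 hZ2
    have hN0 : (0 : ℝ) < N := by exact_mod_cast (by omega : 0 < N)
    have hN1 : (1 : ℝ) ≤ N := by exact_mod_cast (by omega : 1 ≤ N)
    obtain ⟨B, hBd⟩ : ∃ B, B = m * N := ⟨_, rfl⟩
    have hNB : N ≤ B := by rw [hBd]; exact Nat.le_mul_of_pos_left N (by omega)
    have hNBr : (N : ℝ) ≤ B := by exact_mod_cast hNB
    have hBr : (B : ℝ) = m * N := by rw [hBd]; push_cast; rfl
    have hlNB : Real.log N ≤ Real.log B := Real.log_le_log hN0 hNBr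
    have hl0 : 0 < Real.log N := by linarith
    -- the conditions for `B`
    have c1 : (B : ℝ) ≤ (T : ℝ) ^ G.natDegree * Real.log B ^ (C2 + 1) := by
      rw [hBr]
      calc (m : ℝ) * N ≤ Real.log N * ((T : ℝ) ^ G.natDegree * Real.log N ^ C2) :=
            mul_le_mul g5 hT1 hN0.le hl0.le
        _ = (T : ℝ) ^ G.natDegree * Real.log N ^ (C2 + 1) := by rw [pow_succ]; ring
        _ ≤ (T : ℝ) ^ G.natDegree * Real.log B ^ (C2 + 1) := by gcongr
        _ = _ := by rw [hBr]
    have c2 : T ^ G.natDegree ≤ K * B := hT2.trans (Nat.mul_le_mul_left _ hNB)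
    have c3' : ∀ u : ℕ, 1 ≤ u → u ≤ T → -(η2 * N) ≤ ((G.eval (u : ℤ) : ℤ) : ℝ) := by
      intro u hu1 huT
      rcases hT3 with hl | hT3
      · have h1 := hCG hl u
        have h2 : -(CG : ℝ) ≤ ((G.eval (u : ℤ) : ℤ) : ℝ) := by exact_mod_cast h1
        rw [div_le_iff₀ hη2] at g6
        linarith
      · have h1 := hCU u hu1
        have h2 : |((G.eval (u : ℤ) : ℤ) : ℝ)| ≤ CU * (u : ℝ) ^ G.natDegree := by exact_mod_cast h1
        have h3 : (u : ℝ) ^ G.natDegree ≤ (T : ℝ) ^ G.natDegree := by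
          have : (u : ℝ) ≤ T := by exact_mod_cast huT
          gcongr
        have h4 : (CU : ℝ) * (u : ℝ) ^ G.natDegree ≤ CU * (η2 / (CU + 1) * N) :=
          mul_le_mul_of_nonneg_left (h3.trans hT3) (Nat.cast_nonneg _)
        have h5 : (CU : ℝ) * (η2 / (CU + 1) * N) ≤ η2 * N := by
          have e1 : (CU : ℝ) * (η2 / (CU + 1) * N) = (CU / (CU + 1)) * (η2 * N) := by field_simp
          rw [e1]
          have e2 : (CU : ℝ) / (CU + 1) ≤ 1 := by
            rw [div_le_one (by positivity)]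
            linarith
          exact mul_le_of_le_one_left (by positivity) e2
        have h6 := (abs_le.1 (h2.trans (h4.trans h5))).1
        exact h6
    have c3 : ∀ u : ℕ, 1 ≤ u → u ≤ T → -(η1 * B) ≤ ((G.eval (u : ℤ) : ℤ) : ℝ) := by
      intro u hu1 huT
      have h1 := c3' u hu1 huT
      have h2 : η2 * N ≤ η1 * B := mul_le_mul hη21 hNBr hN0.le hη1.le
      linarith
    have c4 : (Z : ℝ) ≤ Real.log B ^ A := hZ2.trans (by gcongr)
    have hbad1 := hB1 B (g2.trans hNB) T Z c1 c2 c3 hZ1 c4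
    obtain ⟨X2, hX2, hX2'⟩ := hB2 B (g3.trans hNB) Z c4
    obtain ⟨X1, hX1⟩ : ∃ X1 : Finset ℕ, X1 = (Icc 1 B).filter (fun b : ℕ => ¬ |(cnt G b c T : ℝ) -
      Sg G b c Z * ∑ t ∈ (Icc 1 T).filter (fun t => 2 ≤ fp G b c t), 1 / Real.log ((fp G b c t : ℤ) : ℝ)| ≤
        δ' * (T / Real.log T)) := ⟨_, rfl⟩
    rw [← hX1] at hbad1
    -- the exceptional set
    obtain ⟨X0, hX0⟩ : ∃ X0 : Finset ℕ, X0 = Icc 1 ⌊ε / 4 * N⌋₊ := ⟨_, rfl⟩
    have hinj : Function.Injective (fun n : ℕ => m * n) := by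
      intro a b hab
      exact Nat.eq_of_mul_eq_mul_left (by omega) hab
    refine ⟨X0 ∪ ((Icc 1 N).filter (fun n => m * n ∈ X1) ∪ (Icc 1 N).filter (fun n => m * n ∈ X2)), ?_, ?_⟩
    · have k0 : (X0.card : ℝ) ≤ ε / 4 * N := by
        rw [hX0, Nat.card_Icc]
        simp only [add_tsub_cancel_right]
        exact Nat.floor_le (by positivity)
      have kk : ∀ X : Finset ℕ, (X.card : ℝ) ≤ ε / (4 * m) * B →
          ((((Icc 1 N).filter (fun n => m * n ∈ X)).card : ℕ) : ℝ) ≤ ε / 4 * N := by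
        intro X hX
        have h1 : ((Icc 1 N).filter (fun n => m * n ∈ X)).card ≤ X.card := by
          refine Finset.card_le_card_of_injOn (fun n => m * n) ?_ hinj.injOn
          intro n hn
          rw [Finset.mem_coe, mem_filter] at hn
          exact hn.2
        calc ((((Icc 1 N).filter (fun n => m * n ∈ X)).card : ℕ) : ℝ) ≤ X.card := by exact_mod_cast h1
          _ ≤ ε / (4 * m) * B := hX
          _ = ε / 4 * N := by rw [hBr]; field_simp
      have k1 := kk X1 hbad1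
      have k2 := kk X2 hX2
      have k3 := Finset.card_union_le X0
        ((Icc 1 N).filter (fun n => m * n ∈ X1) ∪ (Icc 1 N).filter (fun n => m * n ∈ X2))
      have k4 := Finset.card_union_le ((Icc 1 N).filter (fun n => m * n ∈ X1))
        ((Icc 1 N).filter (fun n => m * n ∈ X2))
      have k5 : ((X0 ∪ ((Icc 1 N).filter (fun n => m * n ∈ X1) ∪
          (Icc 1 N).filter (fun n => m * n ∈ X2))).card : ℝ) ≤
          (X0.card : ℝ) + (((Icc 1 N).filter (fun n => m * n ∈ X1)).card : ℝ) +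
          (((Icc 1 N).filter (fun n => m * n ∈ X2)).card : ℝ) := by
        have : (X0 ∪ ((Icc 1 N).filter (fun n => m * n ∈ X1) ∪
          (Icc 1 N).filter (fun n => m * n ∈ X2))).card ≤
          X0.card + ((Icc 1 N).filter (fun n => m * n ∈ X1)).card +
          ((Icc 1 N).filter (fun n => m * n ∈ X2)).card := by omega
        exact_mod_cast this
      have k6 : 0 ≤ ε * N := by positivity
      linarith
    · intro n hn hnX hNF
      rw [mem_Icc] at hn
      rw [mem_union, mem_union, not_or, not_or, mem_filter, mem_filter, mem_Icc] at hnX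
      obtain ⟨hn0, hn1, hn2⟩ := hnX
      obtain ⟨b, hbd⟩ : ∃ b, b = m * n := ⟨_, rfl⟩
      rw [← hbd] at hNF ⊢
      have hb1 : 1 ≤ b := by rw [hbd]; exact Nat.mul_pos (by omega) (by omega)
      have hbB : b ≤ B := by rw [hbd, hBd]; exact Nat.mul_le_mul_left _ hn.2
      have hbI : b ∈ Icc 1 B := mem_Icc.2 ⟨hb1, hbB⟩
      have hbX1 : b ∉ X1 := fun h => hn1 ⟨hn, by rw [← hbd]; exact h⟩
      have hbX2 : b ∉ X2 := fun h => hn2 ⟨hn, by rw [← hbd]; exact h⟩
      have hS := hX2' b hbI hbX2 hNF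
      have hmain : |(cnt G b c T : ℝ) -
          Sg G b c Z * ∑ t ∈ (Icc 1 T).filter (fun t => 2 ≤ fp G b c t), 1 / Real.log ((fp G b c t : ℤ) : ℝ)| ≤
          δ' * (T / Real.log T) := by
        by_contra h
        apply hbX1
        rw [hX1]
        exact mem_filter.2 ⟨hbI, h⟩
      have hnlow : ε / 4 * N < n := by
        by_contra h
        apply hn0
        rw [hX0, mem_Icc]
        exact ⟨hn.1, Nat.le_floor (not_lt.1 h)⟩
      have hn1r : (1 : ℝ) ≤ n := by exact_mod_cast hn.1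
      have hnNr : (n : ℝ) ≤ N := by exact_mod_cast hn.2
      have hbr : (b : ℝ) = m * n := by rw [hbd]; push_cast; rfl
      -- `T`
      have hdne : G.natDegree ≠ 0 := by omega
      have hsqrt : Real.log N ^ C2 ≤ Real.sqrt N := by
        refine Real.le_sqrt_of_sq_le ?_
        rw [← pow_mul, mul_comm C2 2]
        linarith
      have hsqN : Real.sqrt N ≤ (T : ℝ) ^ G.natDegree := by
        have h1 : (N : ℝ) ≤ (T : ℝ) ^ G.natDegree * Real.sqrt N :=
          hT1.trans (mul_le_mul_of_nonneg_left hsqrt (by positivity))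
        have h2 : Real.sqrt N * Real.sqrt N = N := Real.mul_self_sqrt hN0.le
        have h3 : 0 < Real.sqrt N := Real.sqrt_pos.2 hN0
        have h4 : Real.sqrt N * Real.sqrt N ≤ (T : ℝ) ^ G.natDegree * Real.sqrt N := by rw [h2]; exact h1
        exact le_of_mul_le_mul_right h4 h3
      have hTge : (1 : ℝ) < T := by
        by_contra h
        push Not at h
        have h1 : (T : ℝ) ^ G.natDegree ≤ 1 := pow_le_one₀ (Nat.cast_nonneg _) h
        have h2 : (4 : ℝ) ≤ Real.sqrt N := by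
          rw [show (4 : ℝ) = Real.sqrt 16 by
            rw [show (16 : ℝ) = 4 ^ 2 by norm_num]; exact (Real.sqrt_sq (by norm_num)).symm]
          exact Real.sqrt_le_sqrt g11
        linarith
      have hT0 : (0 : ℝ) < T := by linarith
      have hT1' : (1 : ℝ) ≤ T := hTge.le
      have hlogT : 0 < Real.log T := Real.log_pos hTge
      have hlogNT : Real.log N ≤ 2 * G.natDegree * Real.log T := by
        have h1 := Real.log_le_log (Real.sqrt_pos.2 hN0) hsqN
        rw [Real.log_sqrt hN0.le, Real.log_pow] at h1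
        linarith
      have hTN : (T : ℝ) < n := by
        have h1 : (T : ℝ) ^ 2 ≤ (T : ℝ) ^ G.natDegree := pow_le_pow_right₀ hT1' hd
        have h2 : (T : ℝ) ^ G.natDegree ≤ K * N := by exact_mod_cast hT2
        have h3 : (K : ℝ) * N < (ε / 4 * N) ^ 2 := by
          rw [div_le_iff₀ (by positivity)] at g7
          have g7' := mul_le_mul_of_nonneg_right g7 hN0.le
          have g8' : 0 ≤ (K : ℝ) * N := by positivity
          have g9' : (ε / 4 * N) ^ 2 = N * ε ^ 2 * N / 16 := by ring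
          rw [g9']
          linarith
        have h4 : (T : ℝ) ^ 2 < (ε / 4 * N) ^ 2 := by linarith
        have h5 : (T : ℝ) < ε / 4 * N := lt_of_pow_lt_pow_left₀ 2 (by positivity) h4
        linarith
      -- the values
      have hvlow : ∀ t : ℕ, 1 ≤ t → t ≤ T → 2 ≤ fp G b c t := by
        intro t ht htT
        have ht' : (1 : ℝ) ≤ t := by exact_mod_cast ht
        have h1 := c3' t ht htT
        have h2 : ((fp G b c t : ℤ) : ℝ) = (t : ℝ) * (((G.eval (t : ℤ) : ℤ) : ℝ) + b) + c := by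
          unfold fp
          push_cast
          ring
        have h3 : ε / 16 * N + (c.natAbs + 2) ≤ ((G.eval (t : ℤ) : ℤ) : ℝ) + b := by
          have e1 : η2 * N ≤ ε / 16 * N := mul_le_mul_of_nonneg_right hη2ε hN0.le
          have e2 : (n : ℝ) ≤ b := by rw [hbr]; nlinarith
          rw [div_le_iff₀ hε] at g9
          linarith
        have h4 : (-(c.natAbs : ℝ)) ≤ c := by
          have : -(c.natAbs : ℤ) ≤ c := by omega
          exact_mod_cast this
        have h5 : ((c.natAbs : ℝ) + 2) ≤ (t : ℝ) * (((G.eval (t : ℤ) : ℤ) : ℝ) + b) := by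
          have e0 : (0 : ℝ) ≤ c.natAbs := Nat.cast_nonneg _
          have e1 : (c.natAbs : ℝ) + 2 ≤ ((G.eval (t : ℤ) : ℤ) : ℝ) + b := by
            have : 0 ≤ ε / 16 * N := by positivity
            linarith
          nlinarith
        have h6 : (2 : ℝ) ≤ ((fp G b c t : ℤ) : ℝ) := by
          rw [h2]
          linarith
        exact_mod_cast h6
      have hvup : ∀ t : ℕ, 1 ≤ t → t ≤ T → ((fp G b c t : ℤ) : ℝ) ≤ (N : ℝ) ^ 3 := by
        intro t ht htT
        have ht' : (1 : ℝ) ≤ t := by exact_mod_cast ht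
        have htT' : (t : ℝ) ≤ T := by exact_mod_cast htT
        have h2 : ((fp G b c t : ℤ) : ℝ) = (t : ℝ) * (((G.eval (t : ℤ) : ℤ) : ℝ) + b) + c := by
          unfold fp
          push_cast
          ring
        have h3 : ((G.eval (t : ℤ) : ℤ) : ℝ) ≤ CU * (K * N) := by
          have e1 := hCU t ht
          have e2 : |((G.eval (t : ℤ) : ℤ) : ℝ)| ≤ CU * (t : ℝ) ^ G.natDegree := by exact_mod_cast e1
          have e3 : (t : ℝ) ^ G.natDegree ≤ (T : ℝ) ^ G.natDegree := by gcongr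
          have e4 : (T : ℝ) ^ G.natDegree ≤ K * N := by exact_mod_cast hT2
          calc ((G.eval (t : ℤ) : ℤ) : ℝ) ≤ CU * (t : ℝ) ^ G.natDegree := (le_abs_self _).trans e2
            _ ≤ _ := mul_le_mul_of_nonneg_left (e3.trans e4) (Nat.cast_nonneg _)
        have h4 : (b : ℝ) ≤ m * N := by rw [hbr]; gcongr
        have h5 : (c : ℝ) ≤ c.natAbs := by
          rw [Nat.cast_natAbs, Int.cast_abs]
          exact le_abs_self _
        have h6 : (c.natAbs : ℝ) ≤ c.natAbs * N * N := by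
          have e0 : (0 : ℝ) ≤ c.natAbs := Nat.cast_nonneg _
          have e1 : (1 : ℝ) ≤ N * N := by nlinarith
          nlinarith
        have h7 : (t : ℝ) ≤ N := by linarith
        have h8 : (t : ℝ) * (((G.eval (t : ℤ) : ℤ) : ℝ) + b) ≤ N * (CU * (K * N) + m * N) := by
          have e1 : ((G.eval (t : ℤ) : ℤ) : ℝ) + b ≤ CU * (K * N) + m * N := by linarith
          have e2 : (0 : ℝ) ≤ CU * (K * N) + m * N := by positivity
          exact mul_le_mul h7 e1 (by
            have := hvlow t ht htT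
            have e3 : (2 : ℝ) ≤ ((fp G b c t : ℤ) : ℝ) := by exact_mod_cast this
            rw [h2] at e3
            have e4 := c3' t ht htT
            have e5 : η2 * N ≤ ε / 16 * N := mul_le_mul_of_nonneg_right hη2ε hN0.le
            have e6 : (n : ℝ) ≤ b := by rw [hbr]; nlinarith
            linarith) hN0.le
        rw [h2]
        calc (t : ℝ) * (((G.eval (t : ℤ) : ℤ) : ℝ) + b) + c
            ≤ N * (CU * (K * N) + m * N) + c.natAbs * N * N := by linarith
          _ = (CU * K + m + c.natAbs) * (N * N) := by ring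
          _ ≤ N * (N * N) := by
              refine mul_le_mul_of_nonneg_right ?_ (by positivity)
              linarith
          _ = (N : ℝ) ^ 3 := by ring
      have hfilter : (Icc 1 T).filter (fun t => 2 ≤ fp G b c t) = Icc 1 T := by
        apply Finset.filter_true_of_mem
        intro t ht
        rw [mem_Icc] at ht
        exact hvlow t ht.1 ht.2
      have hls : (T : ℝ) / (6 * G.natDegree * Real.log T) ≤
          ∑ t ∈ (Icc 1 T).filter (fun t => 2 ≤ fp G b c t), 1 / Real.log ((fp G b c t : ℤ) : ℝ) := by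
        rw [hfilter]
        calc (T : ℝ) / (6 * G.natDegree * Real.log T)
            = ∑ _t ∈ Icc 1 T, 1 / (6 * G.natDegree * Real.log T) := by
              rw [Finset.sum_const, Nat.card_Icc, nsmul_eq_mul]
              simp only [add_tsub_cancel_right]
              ring
          _ ≤ _ := by
              refine Finset.sum_le_sum fun t ht => ?_
              rw [mem_Icc] at ht
              have e1 := hvlow t ht.1 ht.2
              have e2 : (2 : ℝ) ≤ ((fp G b c t : ℤ) : ℝ) := by exact_mod_cast e1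
              have e3 := Real.log_le_log (by linarith) (hvup t ht.1 ht.2)
              rw [Real.log_pow] at e3
              push_cast at e3
              have e4 : 0 < Real.log ((fp G b c t : ℤ) : ℝ) := Real.log_pos (by linarith)
              refine one_div_le_one_div_of_le e4 ?_
              linarith
      have hcntpos : 0 < cnt G b c T := by
        have h1 := (abs_le.1 hmain).1
        have h2 : κ * ((T : ℝ) / (6 * G.natDegree * Real.log T)) ≤ Sg G b c Z *
            ∑ t ∈ (Icc 1 T).filter (fun t => 2 ≤ fp G b c t), 1 / Real.log ((fp G b c t : ℤ) : ℝ) :=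
          mul_le_mul hS hls (by positivity) (hκ.le.trans hS)
        have h3 : δ' * (T / Real.log T) ≤ κ / (12 * G.natDegree) * (T / Real.log T) :=
          mul_le_mul_of_nonneg_right hδ'2 (by positivity)
        have h4 : κ * ((T : ℝ) / (6 * G.natDegree * Real.log T)) =
            κ / (12 * G.natDegree) * (T / Real.log T) + κ / (12 * G.natDegree) * (T / Real.log T) := by
          field_simp
          ring
        have h5 : 0 < κ / (12 * G.natDegree) * (T / Real.log T) := by positivity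
        have h6 : (0 : ℝ) < cnt G b c T := by linarith
        exact_mod_cast h6
      refine ⟨hS, hmain.trans (mul_le_mul_of_nonneg_right hδ'1 (by positivity)), ?_⟩
      unfold cnt at hcntpos
      obtain ⟨t, ht⟩ := Finset.card_pos.1 hcntpos
      rw [mem_filter, mem_Icc] at ht
      refine ⟨t, ht.1.1, ht.1.2, ?_, ht.2⟩
      have h1 : (t : ℝ) ≤ T := by exact_mod_cast ht.1.2
      have h2 : (t : ℝ) < n := by linarith
      exact_mod_cast h2
  obtain ⟨N0, hN0⟩ := Filter.eventually_atTop.1 hev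
  exact ⟨N0, hN0⟩

end

end Pool.Agent.H37Z.HD
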